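import Pool.Agent.Helper88.TR.Chain
import Pool.Agent.Helper21.TR.Defs

/-!
Root data attached to a set of small weights on which a coweight takes the values `1` and `-1`.
-/

open Module

namespace TR

open Pool.Agent.Helper54.MT RootPairing

variable {ι K M N : Type*} [Field K] [CharZero K] [AddCommGroup M] [Module K M]
  [AddCommGroup N] [Module K N] {P : RootPairing ι K M N} [Fintype ι] [P.IsCrystallographic]

theorem span_top [P.IsIrreducible] (S : Set ι) (hne : S.Nonempty)
    (h : ∀ j, ∀ i ∈ S, P.reflection j (P.root i) ∈ Submodule.span K (P.root '' S)) :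
    Submodule.span K (P.root '' S) = ⊤ := by
  apply IsIrreducible.eq_top_of_invtSubmodule_reflection (P := P)
  · intro j
    rw [Module.End.mem_invtSubmodule, Submodule.span_le]
    rintro _ ⟨i, hi, rfl⟩
    exact h j i hi
  · obtain ⟨i, hi⟩ := hne
    intro h0
    have : P.root i ∈ Submodule.span K (P.root '' S) := Submodule.subset_span ⟨i, hi, rfl⟩
    rw [h0, Submodule.mem_bot] at this
    exact P.ne_zero i this

theorem span_top' [P.IsIrreducible] (S : Set ι) (hne : S.Nonempty)
    (h : ∀ j, ∀ i ∈ S, P.reflectionPerm j i ∈ S) :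
    Submodule.span K (P.root '' S) = ⊤ := by
  refine span_top S hne fun j i hi => Submodule.subset_span ⟨P.reflectionPerm j i, h j i hi, ?_⟩
  exact P.root_reflectionPerm j i

theorem len_perm (j i : ι) : len P (P.reflectionPerm j i) = len P i := by
  have h : (len P (P.reflectionPerm j i) : K) = (len P i : K) := by
    rw [← fm_self, ← fm_self, root_reflectionPerm, fm_refl]
  exact_mod_cast h

theorem root_neg (i : ι) : P.root (P.reflectionPerm i i) = -P.root i := by
  rw [root_reflectionPerm, RootPairing.reflection_apply_self]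

theorem len_ne (i : ι) : (len P i : K) ≠ 0 := by exact_mod_cast (len_pos P i).ne'

/-- The situation: a set of small weights and a coweight with values `1`, `-1` on it. -/
structure Sit (P : RootPairing ι K M N) (X : Finset M) (s : Module.Dual K M) : Prop where
  ws : WeightSet P (X : Set M)
  ne : X.Nonempty
  sx : ∀ x ∈ X, s x = 1 ∨ s x = -1

variable {X : Finset M} {s : Module.Dual K M}

theorem Sit.faith [P.IsIrreducible] (h : Sit P X s) (i : ι) : ∃ x ∈ X, P.coroot' i x = 1 := by
  by_contra! hcon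
  have h0 : ∀ x ∈ X, P.coroot' i x = 0 := by
    intro x hx
    rcases h.ws.small x hx i with h1 | h1 | h1
    · exfalso
      refine hcon (-x) (h.ws.neg x hx) ?_
      rw [map_neg, h1, neg_neg]
    · exact h1
    · exact absurd h1 (hcon x hx)
  have hspan : Submodule.span K (P.root '' {j | ∀ x ∈ X, P.coroot' j x = 0}) = ⊤ := by
    refine span_top' _ ⟨i, h0⟩ ?_
    intro j k hk x hx
    rw [← coroot'_reflection]
    exact hk _ (h.ws.refl x hx j)
  obtain ⟨x, hx⟩ := h.ne
  have hall : ∀ k, P.coroot' k x = 0 := by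
    intro k
    have h1 : Submodule.span K (P.root '' {j | ∀ x ∈ X, P.coroot' j x = 0}) ≤
        LinearMap.ker (fm P x) := by
      rw [Submodule.span_le]
      rintro _ ⟨j, hj, rfl⟩
      have h2 := fm_root P x j
      rw [hj x hx, zero_mul] at h2
      exact (mul_eq_zero.mp h2).resolve_left two_ne_zero
    rw [hspan] at h1
    have h2 : fm P x (P.root k) = 0 := h1 (Submodule.mem_top)
    have h3 := fm_root P x k
    rw [h2, mul_zero] at h3
    exact (mul_eq_zero.mp h3.symm).resolve_right (len_ne k)
  obtain ⟨A, hA1, -, hA3⟩ := h.ws.exists_orth hx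
  have hA : A = ∅ := by
    rw [Finset.eq_empty_iff_forall_notMem]
    intro k hk
    have := hA1 k hk
    rw [hall k] at this
    exact zero_ne_one this
  rw [hA, Finset.sum_empty] at hA3
  have h4 := congrArg s hA3
  rw [map_zero, map_add] at h4
  rcases h.sx x hx with h5 | h5
  · rw [h5] at h4
    norm_num at h4
  · rw [h5] at h4
    norm_num at h4

theorem Sit.bound [P.IsIrreducible] (h : Sit P X s) (i j : ι) :
    -2 ≤ P.pairingIn ℤ i j ∧ P.pairingIn ℤ i j ≤ 2 := by
  obtain ⟨x, hx, h1⟩ := h.faith i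
  obtain ⟨a, ha, ha'⟩ := (h.ws.small x hx).int j
  obtain ⟨b, hb, hb'⟩ := (h.ws.small _ (sub_root_mem h.ws hx h1)).int j
  rw [map_sub, ha, pair_cast] at hb
  have : a - P.pairingIn ℤ i j = b := by exact_mod_cast hb
  omega

theorem Sit.sroot [P.IsIrreducible] (h : Sit P X s) (i : ι) :
    s (P.root i) = 0 ∨ s (P.root i) = 2 ∨ s (P.root i) = -2 := by
  obtain ⟨x, hx, h1⟩ := h.faith i
  have h2 := h.sx x hx
  have h3 := h.sx _ (sub_root_mem h.ws hx h1)
  rw [map_sub] at h3
  rcases h2 with h2 | h2 <;> rw [h2] at h3 <;> rcases h3 with h3 | h3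
  · left; linear_combination -h3
  · right; left; linear_combination -h3
  · right; right; linear_combination -h3
  · left; linear_combination -h3

theorem Sit.cases [P.IsIrreducible] [P.IsReduced] (h : Sit P X s) {i j : ι} (h1 : i ≠ j)
    (h2 : P.root i ≠ -P.root j) :
    (P.pairingIn ℤ i j = 0 ∧ P.pairingIn ℤ j i = 0) ∨
    (P.pairingIn ℤ i j = 1 ∧ P.pairingIn ℤ j i = 1) ∨
    (P.pairingIn ℤ i j = -1 ∧ P.pairingIn ℤ j i = -1) ∨
    (P.pairingIn ℤ i j = 1 ∧ P.pairingIn ℤ j i = 2) ∨
    (P.pairingIn ℤ i j = 2 ∧ P.pairingIn ℤ j i = 1) ∨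
    (P.pairingIn ℤ i j = -1 ∧ P.pairingIn ℤ j i = -2) ∨
    (P.pairingIn ℤ i j = -2 ∧ P.pairingIn ℤ j i = -1) := by
  have h3 := P.pairingIn_pairingIn_mem_set_of_isCrystal_of_isRed' i j
    (fun hc => h1 (P.root.injective hc)) h2
  have h4 := h.bound i j
  have h5 := h.bound j i
  simp only [Set.mem_insert_iff, Prod.mk.injEq, Set.mem_singleton_iff] at h3
  omega

theorem len_of_neg {i j : ι} (h : P.root i = -P.root j) : len P i = len P j := by
  have h1 : (len P i : K) = (len P j : K) := by
    rw [← fm_self, ← fm_self, h, map_neg, map_neg, LinearMap.neg_apply, neg_neg]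
  exact_mod_cast h1

theorem Sit.len_cases [P.IsIrreducible] [P.IsReduced] (h : Sit P X s) (i j : ι) :
    len P i = len P j ∨ len P i = 2 * len P j ∨ len P j = 2 * len P i := by
  obtain ⟨k, hk1, hk2⟩ := P.exists_form_eq_form_and_form_ne_zero
    (P.posRootForm ℤ).toInvariantForm i j
  have e1 : len P k = len P j := by
    have h1 : (len P k : K) = (len P j : K) := by
      rw [← fm_self, ← fm_self]
      exact hk1
    exact_mod_cast h1
  have e2 : P.pairingIn ℤ i k ≠ 0 := by
    intro h0
    have h1 := fm_root_root P i k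
    rw [h0, Int.cast_zero, zero_mul] at h1
    exact hk2 ((mul_eq_zero.mp h1).resolve_left two_ne_zero)
  rw [← e1]
  by_cases h1 : i = k
  · left; rw [h1]
  by_cases h2 : P.root i = -P.root k
  · left; exact len_of_neg h2
  have h3 := pair_len P i k
  rcases h.cases h1 h2 with h4 | h4 | h4 | h4 | h4 | h4 | h4 <;> rw [h4.1, h4.2] at h3 <;>
    omega

theorem Sit.exists_s [P.IsIrreducible] (h : Sit P X s) (S : Set ι)
    (hS : Submodule.span K (P.root '' S) = ⊤)
    (hneg : ∀ i ∈ S, P.reflectionPerm i i ∈ S) : ∃ i ∈ S, s (P.root i) = 2 := by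
  by_contra! hcon
  have h0 : ∀ i ∈ S, s (P.root i) = 0 := by
    intro i hi
    rcases h.sroot i with h1 | h1 | h1
    · exact h1
    · exact absurd h1 (hcon i hi)
    · exfalso
      refine hcon _ (hneg i hi) ?_
      rw [root_neg, map_neg, h1, neg_neg]
  have h1 : Submodule.span K (P.root '' S) ≤ LinearMap.ker s := by
    rw [Submodule.span_le]
    rintro _ ⟨j, hj, rfl⟩
    exact h0 j hj
  obtain ⟨x, hx⟩ := h.ne
  rw [hS] at h1
  have h2 : s x = 0 := h1 Submodule.mem_top
  rcases h.sx x hx with h3 | h3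
  · rw [h2] at h3
    exact zero_ne_one h3
  · rw [h2] at h3
    norm_num at h3

theorem Sit.span_plus [P.IsIrreducible] (h : Sit P X s) (hspan : P.rootSpan K = ⊤) :
    Submodule.span K (P.root '' {i | s (P.root i) = 2}) = ⊤ := by
  obtain ⟨i0, -, hi0⟩ := h.exists_s Set.univ (by rw [Set.image_univ]; exact hspan)
    (fun _ _ => Set.mem_univ _)
  refine span_top _ ⟨i0, hi0⟩ ?_
  intro j i hi
  have hi' : s (P.root i) = 2 := hi
  rcases h.sroot j with h1 | h1 | h1
  · refine Submodule.subset_span ⟨P.reflectionPerm j i, ?_, P.root_reflectionPerm j i⟩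
    change s _ = 2
    rw [root_reflectionPerm, RootPairing.reflection_apply, map_sub, map_smul, h1, smul_zero,
      sub_zero, hi']
  · rw [RootPairing.reflection_apply]
    exact Submodule.sub_mem _ (Submodule.subset_span ⟨i, hi, rfl⟩)
      (Submodule.smul_mem _ _ (Submodule.subset_span ⟨j, h1, rfl⟩))
  · rw [RootPairing.reflection_apply]
    refine Submodule.sub_mem _ (Submodule.subset_span ⟨i, hi, rfl⟩)
      (Submodule.smul_mem _ _ ?_)
    have h2 : P.root j = -P.root (P.reflectionPerm j j) := by rw [root_neg, neg_neg]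
    rw [h2]
    refine Submodule.neg_mem _ (Submodule.subset_span ⟨_, ?_, rfl⟩)
    change s _ = 2
    rw [root_neg, map_neg, h1, neg_neg]

/-- The normalised form. -/
noncomputable def bf (P : RootPairing ι K M N) [P.IsCrystallographic] (l : ℤ) :
    LinearMap.BilinForm K M := (2 / (l : K)) • fm P

theorem bf_apply (l : ℤ) (x y : M) : bf P l x y = 2 / (l : K) * fm P x y := rfl

theorem bf_symm (l : ℤ) (x y : M) : bf P l x y = bf P l y x := by
  rw [bf_apply, bf_apply, fm_symm]

theorem bf_one {l : ℤ} {i : ι} (hl : len P i = l) (x : M) :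
    bf P l x (P.root i) = P.coroot' i x := by
  have h1 := fm_root P x i
  have h2 := len_ne (P := P) i
  rw [hl] at h1 h2
  rw [bf_apply, div_mul_eq_mul_div, h1, mul_div_assoc, div_self h2, mul_one]

theorem bf_two {l : ℤ} {i : ι} (hl : len P i = 2 * l) (x : M) :
    bf P l x (P.root i) = 2 * P.coroot' i x := by
  have h1 := fm_root P x i
  have h2 := len_ne (P := P) i
  rw [hl] at h1 h2
  have h3 : (l : K) ≠ 0 := by
    intro h
    apply h2
    push_cast
    rw [h, mul_zero]
  push_cast at h1
  rw [bf_apply, div_mul_eq_mul_div, h1]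
  field_simp

end TR
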