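import Pool.Agent.Helper54.MT.Parity

/-!
Definitions for the classification of toric ranks, in terms of root pairings.
-/

open Module

namespace TR

open Pool.Agent.Helper54.MT

variable {ι K M N : Type*} [Field K] [CharZero K] [AddCommGroup M] [Module K M]
  [AddCommGroup N] [Module K N]

/-- Strongly orthogonal sets of roots with sum twice a weight are odd. -/
def Par (P : RootPairing ι K M N) [P.IsCrystallographic] (X : Finset M) : Prop :=
  ∀ x ∈ X, ∀ A : Finset ι, (∀ i ∈ A, P.coroot' i x = 1) → Orth P A →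
    ∑ i ∈ A, P.root i = x + x →
    (∀ i ∈ A, ∀ j ∈ A, i ≠ j → P.root i + P.root j ∉ Set.range P.root) → Odd A.card

/-- The long roots. -/
def Long (P : RootPairing ι K M N) [P.IsCrystallographic] (θ : ι) : Prop :=
  ∀ i, i ≠ θ → P.root i ≠ -P.root θ →
    P.pairingIn ℤ i θ = -1 ∨ P.pairingIn ℤ i θ = 0 ∨ P.pairingIn ℤ i θ = 1

end TR
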