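import Pool.Agent.Helper88.TR.RootData

/-!
Simply laced root pairings give simply laced systems.
-/

open Module

namespace TR

open Pool.Agent.Helper54.MT RootPairing

variable {ι K M N : Type*} [Field K] [CharZero K] [AddCommGroup M] [Module K M]
  [AddCommGroup N] [Module K N] {P : RootPairing ι K M N} [Fintype ι] [P.IsCrystallographic]
  {X : Finset M} {s : Module.Dual K M}

theorem Sit.same [P.IsIrreducible] [P.IsReduced] (h : Sit P X s) {i j : ι} (h1 : i ≠ j)
    (h2 : P.root i ≠ -P.root j) (h3 : len P i = len P j) :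
    P.pairingIn ℤ i j = -1 ∨ P.pairingIn ℤ i j = 0 ∨ P.pairingIn ℤ i j = 1 := by
  have h4 := pair_len P i j
  have h5 := len_pos P j
  rw [h3] at h4
  rcases h.cases h1 h2 with h6 | h6 | h6 | h6 | h6 | h6 | h6 <;> rw [h6.1, h6.2] at h4 <;> omega

theorem refl_perm_one {i j : ι} (h : P.pairingIn ℤ i j = 1) :
    P.root (P.reflectionPerm j i) = P.root i - P.root j := by
  rw [root_reflectionPerm, RootPairing.reflection_apply, pair_cast, h, Int.cast_one, one_smul]

theorem len_add {i j k : ι} (h0 : P.pairingIn ℤ i j = 0) (hk : P.root k = P.root i + P.root j) :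
    len P k = len P i + len P j := by
  have e2 : fm P (P.root k) (P.root k) =
      (len P i : K) + (len P j : K) + (P.pairingIn ℤ i j : K) * (len P j : K) := by
    rw [hk, map_add, map_add, LinearMap.add_apply, LinearMap.add_apply, fm_self, fm_self,
      fm_symm P (P.root j) (P.root i)]
    have := fm_root_root P i j
    linear_combination this
  rw [fm_self, h0, Int.cast_zero, zero_mul, add_zero] at e2
  exact_mod_cast e2

theorem span_form {S : Set ι} (hS : Submodule.span K (P.root '' S) = ⊤) (l : ℤ) {m : M}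
    (h : ∀ i ∈ S, bf P l m (P.root i) = 0) (x : M) : bf P l m x = 0 := by
  have h1 : Submodule.span K (P.root '' S) ≤ LinearMap.ker (bf P l m) := by
    rw [Submodule.span_le]
    rintro _ ⟨j, hj, rfl⟩
    exact h j hj
  rw [hS] at h1
  exact h1 Submodule.mem_top

theorem Sit.toSL [P.IsIrreducible] [P.IsReduced] [DecidableEq M] (h : Sit P X s)
    (hspan : P.rootSpan K = ⊤) (hpar : Par P X) {l : ℤ} (hl : ∀ i, len P i = l) :
    SL (bf P l) s (Finset.univ.image P.root) X where
  symm := bf_symm l
  two := by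
    intro a ha
    obtain ⟨i, -, rfl⟩ := Finset.mem_image.mp ha
    rw [bf_one (hl i), pair_cast, pair_self]
    norm_num
  neg := by
    intro a ha
    obtain ⟨i, -, rfl⟩ := Finset.mem_image.mp ha
    exact Finset.mem_image.mpr ⟨P.reflectionPerm i i, Finset.mem_univ _, root_neg i⟩
  pair := by
    intro a ha b hb hab hab'
    obtain ⟨i, -, rfl⟩ := Finset.mem_image.mp ha
    obtain ⟨j, -, rfl⟩ := Finset.mem_image.mp hb
    rw [bf_one (hl j), pair_cast]
    have hij : i ≠ j := by rintro rfl; exact hab rfl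
    rcases h.same hij hab' ((hl i).trans (hl j).symm) with h1 | h1 | h1 <;> rw [h1]
    · left; norm_num
    · right; left; norm_num
    · right; right; norm_num
  sub := by
    intro a ha b hb hab
    obtain ⟨i, -, rfl⟩ := Finset.mem_image.mp ha
    obtain ⟨j, -, rfl⟩ := Finset.mem_image.mp hb
    rw [bf_one (hl j), pair_cast] at hab
    have h1 : P.pairingIn ℤ i j = 1 := by exact_mod_cast hab
    exact Finset.mem_image.mpr ⟨P.reflectionPerm j i, Finset.mem_univ _, refl_perm_one h1⟩
  small := by
    intro x hx a ha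
    obtain ⟨i, -, rfl⟩ := Finset.mem_image.mp ha
    rw [bf_one (hl i)]
    exact h.ws.small x hx i
  xsub := by
    intro x hx a ha hxa
    obtain ⟨i, -, rfl⟩ := Finset.mem_image.mp ha
    rw [bf_one (hl i)] at hxa
    exact sub_root_mem h.ws hx hxa
  xneg := h.ws.neg
  sx := h.sx
  faith := by
    intro a ha
    obtain ⟨i, -, rfl⟩ := Finset.mem_image.mp ha
    obtain ⟨x, hx, h1⟩ := h.faith i
    exact ⟨x, hx, by rw [bf_one (hl i)]; exact h1⟩
  chain := by
    intro x hx y hy hx1 hy1
    refine Relation.ReflTransGen.mono ?_ _ _ (weights_chain_one h.ws s h.sx hx hy hx1 hy1)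
    rintro x y ⟨i, h1, h2, h3⟩
    exact ⟨P.root i, Finset.mem_image.mpr ⟨i, Finset.mem_univ _, rfl⟩, h1,
      by change bf P l x (P.root i) = 1; rw [bf_one (hl i)]; exact h2, h3⟩
  hit := by
    intro g hg hg0
    obtain ⟨i, -, rfl⟩ := Finset.mem_image.mp hg
    by_contra! hcon
    have h1 : bf P l (P.root i) (P.root i) = 0 := by
      refine span_form (h.span_plus hspan) l (fun j hj => ?_) _
      exact hcon _ (Finset.mem_image.mpr ⟨j, Finset.mem_univ _, rfl⟩) hj
    rw [bf_one (hl i), pair_cast, pair_self] at h1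
    norm_num at h1
  sep := by
    intro x hx y hy hxy
    by_contra hne
    obtain ⟨i, h1, h2⟩ := (h.ws.small x hx).separate (h.ws.small y hy) hne (h.ws.conn x hx y hy)
    have h3 := hxy _ (Finset.mem_image.mpr ⟨i, Finset.mem_univ _, rfl⟩)
    rw [bf_one (hl i), bf_one (hl i), h1, h2] at h3
    norm_num at h3
  orth := by
    intro x hx a ha hxa
    obtain ⟨i, -, rfl⟩ := Finset.mem_image.mp ha
    rw [bf_one (hl i)] at hxa
    obtain ⟨A, hA0, hA1, hA2, hA3⟩ := exists_orth_mem h.ws hx hxa
    refine ⟨A.image P.root, ?_, ?_, ?_, ?_, ?_, ?_⟩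
    · intro b hb
      obtain ⟨j, hj, rfl⟩ := Finset.mem_image.mp hb
      exact Finset.mem_image.mpr ⟨j, Finset.mem_univ _, rfl⟩
    · exact Finset.mem_image.mpr ⟨i, hA0, rfl⟩
    · intro b hb
      obtain ⟨j, hj, rfl⟩ := Finset.mem_image.mp hb
      rw [bf_one (hl j)]
      exact hA1 j hj
    · intro b hb c hc hbc
      obtain ⟨j, hj, rfl⟩ := Finset.mem_image.mp hb
      obtain ⟨k, hk, rfl⟩ := Finset.mem_image.mp hc
      have hjk : j ≠ k := by rintro rfl; exact hbc rfl
      rw [bf_one (hl k), pair_cast, hA2 j hj k hk hjk, Int.cast_zero]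
    · rw [Finset.sum_image (fun _ _ _ _ h => P.root.injective h)]
      exact hA3
    · rw [Finset.card_image_of_injective _ P.root.injective]
      refine hpar x hx A hA1 hA2 hA3 ?_
      rintro j hj k hk hjk ⟨m, hm⟩
      have h1 := len_add (hA2 j hj k hk hjk) hm
      rw [hl, hl, hl] at h1
      have h2 := len_pos P m
      rw [hl] at h2
      omega

end TR
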