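import Pool.Agent.Helper88.TR.RDefs

/-!
Chains of small weights and orthogonal sets of roots containing a given root.
-/

open Module

namespace TR

open Pool.Agent.Helper54.MT RootPairing

variable {ι K M N : Type*} [Field K] [CharZero K] [AddCommGroup M] [Module K M]
  [AddCommGroup N] [Module K N] {P : RootPairing ι K M N} [Fintype ι] [P.IsCrystallographic]

/-- The head of a shortest expression of the difference separates the two weights. -/
theorem head_sep {x y : M} (hx : Small P x) (hy : Small P y) {i : ι} {t : List ι}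
    (hl : x = y + ((i :: t).map P.root).sum)
    (hmin : ∀ l' : List ι, x = y + (l'.map P.root).sum → (i :: t).length ≤ l'.length) :
    P.coroot' i x = 1 ∧ P.coroot' i y = -1 := by
  have hpos : ∀ j ∈ t, 0 ≤ P.pairingIn ℤ j i := by
    intro j hj
    by_contra hneg
    rw [not_le] at hneg
    obtain ⟨t1, t2, rfl⟩ := List.append_of_mem hj
    have hsum : ((i :: (t1 ++ j :: t2)).map P.root).sum =
        (P.root j + P.root i) + ((t1 ++ t2).map P.root).sum := by
      simp only [List.map_cons, List.map_append, List.sum_cons, List.sum_append]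
      abel
    by_cases h0 : P.root j = -P.root i
    · have := hmin (t1 ++ t2) (by rw [hl, hsum, h0]; simp)
      simp only [List.length_cons, List.length_append] at this
      omega
    · obtain ⟨k, hk⟩ := P.root_add_root_mem_of_pairingIn_neg hneg h0
      have := hmin (k :: (t1 ++ t2)) (by
        rw [hl, hsum, ← hk, List.map_cons, List.sum_cons])
      simp only [List.length_cons, List.length_append] at this
      omega
  have h0 : 0 ≤ (t.map fun j => P.pairingIn ℤ j i).sum := by
    apply List.sum_nonneg
    intro a ha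
    obtain ⟨j, hj, rfl⟩ := List.mem_map.mp ha
    exact hpos j hj
  obtain ⟨a, ha, ha'⟩ := hx.int i
  obtain ⟨b, hb, hb'⟩ := hy.int i
  have e : P.coroot' i x = P.coroot' i y +
      (((((i :: t).map fun j => P.pairingIn ℤ j i).sum : ℤ)) : K) := by
    conv_lhs => rw [hl]
    rw [map_add, coroot_list]
  rw [ha, hb, List.map_cons, List.sum_cons, pair_self] at e
  have e' : a = b + (2 + (t.map fun j => P.pairingIn ℤ j i).sum) := by exact_mod_cast e
  refine ⟨?_, ?_⟩
  · have : a = 1 := by omega
    rw [ha, this]; simp
  · have : b = -1 := by omega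
    rw [hb, this]; simp

theorem refl_one {x : M} {i : ι} (h : P.coroot' i x = 1) : P.reflection i x = x - P.root i := by
  rw [RootPairing.reflection_apply, h, one_smul]

theorem sub_root_mem {W : Set M} (hW : WeightSet P W) {x : M} (hx : x ∈ W) {i : ι}
    (h : P.coroot' i x = 1) : x - P.root i ∈ W := by
  rw [← refl_one h]
  exact hW.refl x hx i

theorem chain_aux {W : Set M} (hW : WeightSet P W) (R : M → M → Prop) (C : M → Prop)
    (hstep : ∀ x ∈ W, ∀ y ∈ W, C x → C y → ∀ i, P.coroot' i x = 1 → P.coroot' i y = -1 →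
      R x (x - P.root i) ∧ C (x - P.root i)) {y : M} (hy : y ∈ W) (hCy : C y) :
    ∀ n : ℕ, ∀ x ∈ W, C x → (∃ l : List ι, l.length ≤ n ∧ x = y + (l.map P.root).sum) →
      Relation.ReflTransGen R x y := by
  classical
  intro n
  induction n with
  | zero =>
    rintro x hx hCx ⟨l, hl0, hl⟩
    have : l = [] := List.length_eq_zero_iff.mp (Nat.le_zero.mp hl0)
    subst this
    have : x = y := by simpa using hl
    rw [this]
  | succ n ih =>
    rintro x hx hCx ⟨l0, hl0, hl0'⟩
    have hex : ∃ n, ∃ l : List ι, l.length = n ∧ x = y + (l.map P.root).sum :=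
      ⟨l0.length, l0, rfl, hl0'⟩
    obtain ⟨l, hln, hl⟩ := Nat.find_spec hex
    have hmin : ∀ l' : List ι, x = y + (l'.map P.root).sum → l.length ≤ l'.length := by
      intro l' hl'
      rw [hln]
      exact Nat.find_min' hex ⟨l', rfl, hl'⟩
    cases l with
    | nil =>
      have : x = y := by simpa using hl
      rw [this]
    | cons i t =>
      obtain ⟨h1, h2⟩ := head_sep (hW.small x hx) (hW.small y hy) hl hmin
      obtain ⟨hR, hC⟩ := hstep x hx y hy hCx hCy i h1 h2
      refine Relation.ReflTransGen.head hR ?_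
      refine ih _ (sub_root_mem hW hx h1) hC ⟨t, ?_, ?_⟩
      · have := hmin l0 hl0'
        simp only [List.length_cons] at this
        omega
      · conv_lhs => rw [hl]
        rw [List.map_cons, List.sum_cons]
        abel

/-- T1: transitivity. -/
theorem weights_chain {X : Finset M} (hW : WeightSet P (X : Set M)) {x y : M} (hx : x ∈ X)
    (hy : y ∈ X) : Relation.ReflTransGen
      (fun x y => ∃ i, P.coroot' i x = 1 ∧ y = x - P.root i) x y := by
  obtain ⟨l, hl⟩ := hW.conn x hx y hy
  exact chain_aux hW _ (fun _ => True) (fun x _ y _ _ _ i h1 _ => ⟨⟨i, h1, rfl⟩, trivial⟩)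
    hy trivial l.length x hx trivial ⟨l, le_rfl, hl⟩

/-- T2: transitivity inside `s = 1`. -/
theorem weights_chain_one {X : Finset M} (hW : WeightSet P (X : Set M)) (s : Module.Dual K M)
    (hs : ∀ x ∈ X, s x = 1 ∨ s x = -1) {x y : M} (hx : x ∈ X)
    (hy : y ∈ X) (hx1 : s x = 1) (hy1 : s y = 1) : Relation.ReflTransGen
      (fun x y => ∃ i, s (P.root i) = 0 ∧ P.coroot' i x = 1 ∧ y = x - P.root i) x y := by
  obtain ⟨l, hl⟩ := hW.conn x hx y hy
  refine chain_aux hW _ (fun z => s z = 1) ?_ hy hy1 l.length x hx hx1 ⟨l, le_rfl, hl⟩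
  intro x hx y hy hsx hsy i h1 h2
  have e1 : x - P.root i ∈ X := sub_root_mem hW hx h1
  have e2 : y + P.root i ∈ X := by
    have h3 : P.coroot' i (-y) = 1 := by rw [map_neg, h2, neg_neg]
    have h4 := hW.neg _ (sub_root_mem hW (hW.neg y hy) h3)
    have h5 : -(-y - P.root i) = y + P.root i := by abel
    rw [h5] at h4
    exact h4
  have h6 := hs _ e1
  have h7 := hs _ e2
  rw [map_sub, hsx] at h6
  rw [map_add, hsy] at h7
  have h0 : s (P.root i) = 0 := by
    rcases h6 with h6 | h6
    · linear_combination -h6
    · rcases h7 with h7 | h7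
      · linear_combination h7
      · exfalso
        have h8 : s (P.root i) = 2 := by linear_combination -h6
        have h9 : s (P.root i) = -2 := by linear_combination h7
        rw [h8] at h9
        have : (4 : K) = 0 := by linear_combination h9
        exact (by norm_num : (4 : K) ≠ 0) this
  refine ⟨⟨i, h0, h1, rfl⟩, ?_⟩
  rw [map_sub, h0, hsx, sub_zero]

/-- Twice a weight is a sum of orthogonal roots which contain a given root. -/
theorem exists_orth_mem {W : Set M} (hW : WeightSet P W) {x : M} (hx : x ∈ W) {a : ι}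
    (ha : P.coroot' a x = 1) :
    ∃ A : Finset ι, a ∈ A ∧ (∀ i ∈ A, P.coroot' i x = 1) ∧ Orth P A ∧
      ∑ i ∈ A, P.root i = x + x := by
  classical
  let F : Finset (Finset ι) := Finset.univ.filter fun A =>
    a ∈ A ∧ (∀ i ∈ A, P.coroot' i x = 1) ∧ Orth P A
  have hne : F.Nonempty := by
    refine ⟨{a}, Finset.mem_filter.mpr ⟨Finset.mem_univ _, Finset.mem_singleton_self a, ?_, ?_⟩⟩
    · intro i hi
      rw [Finset.mem_singleton.mp hi]
      exact ha
    · intro i hi j hj hij
      exact absurd ((Finset.mem_singleton.mp hi).trans (Finset.mem_singleton.mp hj).symm) hij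
  obtain ⟨A, hAF, hmax⟩ := F.exists_max_image Finset.card hne
  obtain ⟨hA0, hA1, hA2⟩ := (Finset.mem_filter.mp hAF).2
  refine ⟨A, hA0, hA1, hA2, ?_⟩
  by_contra hcon
  have hy : rs P A x ∈ W := rs_induction hA2 (fun y => y ∈ W) (fun i y hy => hW.refl y hy i) hx
  have hyx : rs P A x ≠ -x := by
    intro h
    rw [sum_ones hA1] at h
    apply hcon
    have : ∑ j ∈ A, P.root j = x - (x - ∑ j ∈ A, P.root j) := by abel
    rw [this, h]
    abel
  obtain ⟨i, hi1, hi2⟩ := (hW.small _ hy).separate (hW.small _ (hW.neg x hx)) hyx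
    (hW.conn _ hy _ (hW.neg x hx))
  have hi3 : P.coroot' i x = 1 := by
    rw [map_neg] at hi2
    linear_combination -hi2
  rw [sum_ones hA1, map_sub, hi3] at hi1
  have hsum : ∑ j ∈ A, P.pairingIn ℤ j i = 0 := by
    have h1 := coroot_sum (P := P) i A (fun _ => 1)
    simp only [one_smul, one_mul] at h1
    rw [h1] at hi1
    have : (((∑ j ∈ A, P.pairingIn ℤ j i : ℤ)) : K) = 0 := by
      push_cast
      linear_combination -hi1
    exact_mod_cast this
  have hzero := (Finset.sum_eq_zero_iff_of_nonneg (fun j hj =>
    (hW.small x hx).pair_nonneg (hA1 j hj) hi3)).mp hsum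
  have hiA : i ∉ A := by
    intro h
    have := hzero i h
    rw [pair_self] at this
    omega
  have hmem : insert i A ∈ F := by
    refine Finset.mem_filter.mpr ⟨Finset.mem_univ _, Finset.mem_insert_of_mem hA0, ?_, ?_⟩
    · intro j hj
      rcases Finset.mem_insert.mp hj with rfl | hj
      · exact hi3
      · exact hA1 j hj
    · intro j hj k hk hjk
      rcases Finset.mem_insert.mp hj with h | hj'
      · rcases Finset.mem_insert.mp hk with h' | hk'
        · exact absurd (h.trans h'.symm) hjk
        · rw [h]; exact pair_zero P (hzero k hk')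
      · rcases Finset.mem_insert.mp hk with h' | hk'
        · rw [h']; exact hzero j hj'
        · exact hA2 j hj' k hk' hjk
  have := hmax _ hmem
  rw [Finset.card_insert_of_notMem hiA] at this
  omega

end TR
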