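import Pool.Agent.Helper88.TR.ToTL

/-!
The classification for root pairings, from the two combinatorial classifications.
-/

open Module

namespace TR

open Pool.Agent.Helper54.MT RootPairing

variable {ι K M N : Type*} [Field K] [CharZero K] [AddCommGroup M] [Module K M]
  [AddCommGroup N] [Module K N] {P : RootPairing ι K M N} [Fintype ι] [P.IsCrystallographic]

open Classical in
/-- A3, from A1 and A2. -/
theorem rx_of [P.IsReduced] [P.IsIrreducible] [DecidableEq M]
    (hSL : ∀ {B : LinearMap.BilinForm K M} {s : M →ₗ[K] K} {Φ X : Finset M}, SL B s Φ X →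
      ∀ {i : M}, i ∈ Φ → s i = 2 →
      (∃ m, Odd m ∧ X.card = (2 * m).choose m ∧
        (X.filter (fun x => B x i = 1)).card = (2 * m - 2).choose (m - 1)) ∨
      (∃ n, n % 4 = 1 ∧ 5 ≤ n ∧ X.card = 2 ^ n ∧
        (X.filter (fun x => B x i = 1)).card = 2 ^ (n - 2)))
    (hTL : ∀ {B : LinearMap.BilinForm K M} {s : M →ₗ[K] K} {ΦL ΦS X : Finset M},
      TL B s ΦL ΦS X → ∃ i ∈ ΦL, s i = 2 ∧
      ((X.filter (fun x => B x i = 2)).card = 1 ∨
      (∃ n, (n % 4 = 1 ∨ n % 4 = 2) ∧ 5 ≤ n ∧ X.card = 2 ^ n ∧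
        (X.filter (fun x => B x i = 2)).card = 2 ^ (n - 2))))
    {X : Finset M} (hW : WeightSet P (X : Set M)) (hne : X.Nonempty)
    (s : Module.Dual K M) (hs : ∀ x ∈ X, s x = 1 ∨ s x = -1)
    (hspan : P.rootSpan K = ⊤) (hpar : Par P X) :
    ∃ θ, Long P θ ∧ ((X.filter (fun x => P.coroot' θ x = 1)).card = 1 ∨
    (∃ m, Odd m ∧ X.card = (2 * m).choose m ∧
      (X.filter (fun x => P.coroot' θ x = 1)).card = (2 * m - 2).choose (m - 1)) ∨
    (∃ n, (n % 4 = 1 ∨ n % 4 = 2) ∧ 5 ≤ n ∧ X.card = 2 ^ n ∧
      (X.filter (fun x => P.coroot' θ x = 1)).card = 2 ^ (n - 2))) := by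
  have h : Sit P X s := ⟨hW, hne, hs⟩
  by_cases hall : ∀ i j, len P i = len P j
  · -- simply laced
    obtain ⟨i0, -, hi0⟩ := h.exists_s Set.univ (by rw [Set.image_univ]; exact hspan)
      (fun _ _ => Set.mem_univ _)
    have hl : ∀ i, len P i = len P i0 := fun i => hall i i0
    have h1 := hSL (h.toSL hspan hpar hl) (i := P.root i0)
      (Finset.mem_image.mpr ⟨i0, Finset.mem_univ _, rfl⟩) hi0
    have h2 : X.filter (fun x => bf P (len P i0) x (P.root i0) = 1) =
        X.filter (fun x => P.coroot' i0 x = 1) := by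
      refine Finset.filter_congr fun x _ => ?_
      rw [bf_one rfl]
    rw [h2] at h1
    refine ⟨i0, ?_, ?_⟩
    · intro i hi hi'
      exact h.same hi hi' (hall i i0)
    · rcases h1 with h1 | ⟨n, hn, h1⟩
      · exact Or.inr (Or.inl h1)
      · exact Or.inr (Or.inr ⟨n, Or.inl hn, h1⟩)
  · -- two lengths
    rw [not_forall] at hall
    obtain ⟨i1, hall⟩ := hall
    rw [not_forall] at hall
    obtain ⟨j1, hij⟩ := hall
    obtain ⟨i0, j0, hij0⟩ : ∃ i0 j0, len P i0 = 2 * len P j0 := by
      rcases h.len_cases i1 j1 with h1 | h1 | h1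
      · exact absurd h1 hij
      · exact ⟨i1, j1, h1⟩
      · exact ⟨j1, i1, h1⟩
    set l := len P j0 with hl
    have hl0 : 0 < l := len_pos P j0
    have hlen : ∀ i, len P i = l ∨ len P i = 2 * l := by
      intro i
      have h1 := h.len_cases i i0
      have h2 := h.len_cases i j0
      rw [hij0] at h1
      rw [← hl] at h2
      omega
    obtain ⟨a, ha, has, h1⟩ := hTL (h.toTL hspan hpar hlen hij0 hl.symm)
    obtain ⟨θ, hθ, rfl⟩ := mem_ofLen.mp ha
    have h2 : X.filter (fun x => bf P l x (P.root θ) = 2) =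
        X.filter (fun x => P.coroot' θ x = 1) := by
      refine Finset.filter_congr fun x _ => ?_
      rw [bf_two hθ]
      constructor
      · intro h3
        have h2 : (2 : K) * (P.coroot' θ x - 1) = 0 := by linear_combination h3
        have h3 := (mul_eq_zero.mp h2).resolve_left two_ne_zero
        linear_combination h3
      · intro h3
        rw [h3, mul_one]
    rw [h2] at h1
    refine ⟨θ, ?_, ?_⟩
    · intro i hi hi'
      rcases hlen i with h3 | h3
      · have h4 := pair_len P i θ
        have h5 := len_pos P i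
        rw [hθ, h3] at h4
        have h6 : (2 * P.pairingIn ℤ i θ - P.pairingIn ℤ θ i) * l = 0 := by
          linear_combination h4
        rcases mul_eq_zero.mp h6 with h7 | h7
        · have h8 := h.bound θ i
          omega
        · omega
      · exact h.same hi hi' (h3.trans hθ.symm)
    · rcases h1 with h1 | h1
      · exact Or.inl h1
      · exact Or.inr (Or.inr h1)

end TR
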