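import Pool.Agent.Helper88.TR.ToSL

/-!
Root pairings with two root lengths give systems with two root lengths.
-/

open Module

namespace TR

open Pool.Agent.Helper54.MT RootPairing

variable {ι K M N : Type*} [Field K] [CharZero K] [AddCommGroup M] [Module K M]
  [AddCommGroup N] [Module K N] {P : RootPairing ι K M N} [Fintype ι] [P.IsCrystallographic]
  {X : Finset M} {s : Module.Dual K M}

open Classical in
/-- The roots of length `l`. -/
noncomputable def ofLen [DecidableEq M] (P : RootPairing ι K M N) [P.IsCrystallographic] (l : ℤ) :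
    Finset M :=
  (Finset.univ.filter fun i => len P i = l).image P.root

theorem mem_ofLen [DecidableEq M] {l : ℤ} {a : M} :
    a ∈ ofLen P l ↔ ∃ i, len P i = l ∧ P.root i = a := by
  simp [ofLen]

theorem Sit.span_len [P.IsIrreducible] {l : ℤ} {i : ι} (hi : len P i = l) :
    Submodule.span K (P.root '' {i | len P i = l}) = ⊤ := by
  refine span_top' _ ⟨i, hi⟩ ?_
  intro j k hk
  change len P _ = l
  rw [len_perm]
  exact hk

theorem refl_perm_two {i j : ι} (h : P.pairingIn ℤ i j = 2) :
    P.root (P.reflectionPerm j i) = P.root i - (2 : K) • P.root j := by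
  rw [root_reflectionPerm, RootPairing.reflection_apply, pair_cast, h]
  norm_num

theorem Sit.toTL [P.IsIrreducible] [P.IsReduced] [DecidableEq M] (h : Sit P X s)
    (hspan : P.rootSpan K = ⊤) (hpar : Par P X) {l : ℤ} (hl : ∀ i, len P i = l ∨ len P i = 2 * l)
    {i0 j0 : ι} (hi0 : len P i0 = 2 * l) (hj0 : len P j0 = l) :
    TL (bf P l) s (ofLen P (2 * l)) (ofLen P l) X := by
  have hl0 : 0 < l := by
    have := len_pos P j0
    omega
  have hLS : ∀ i j, len P i = 2 * l → len P j = l → P.pairingIn ℤ i j = 2 * P.pairingIn ℤ j i := by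
    intro i j h1 h2
    have h3 := pair_len P i j
    rw [h1, h2] at h3
    have h4 : (P.pairingIn ℤ i j - 2 * P.pairingIn ℤ j i) * l = 0 := by linear_combination h3
    rcases mul_eq_zero.mp h4 with h5 | h5
    · omega
    · omega
  have hmem : ∀ i, P.root i ∈ ofLen P (2 * l) ∪ ofLen P l := by
    intro i
    rw [Finset.mem_union, mem_ofLen, mem_ofLen]
    rcases hl i with h1 | h1
    · right; exact ⟨i, h1, rfl⟩
    · left; exact ⟨i, h1, rfl⟩
  have hco : ∀ i x, co (bf P l) x (P.root i) = P.coroot' i x := by
    intro i x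
    rw [co]
    rcases hl i with h1 | h1
    · rw [bf_one h1, bf_one h1, pair_cast, pair_self]
      push_cast
      field_simp
    · rw [bf_two h1, bf_two h1, pair_cast, pair_self]
      push_cast
      field_simp
  exact {
    symm := bf_symm l
    four := by
      intro a ha
      obtain ⟨i, hi, rfl⟩ := mem_ofLen.mp ha
      rw [bf_two hi, pair_cast, pair_self]
      norm_num
    two := by
      intro a ha
      obtain ⟨i, hi, rfl⟩ := mem_ofLen.mp ha
      rw [bf_one hi, pair_cast, pair_self]
      norm_num
    negL := by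
      intro a ha
      obtain ⟨i, hi, rfl⟩ := mem_ofLen.mp ha
      exact mem_ofLen.mpr ⟨P.reflectionPerm i i, by rw [len_perm, hi], root_neg i⟩
    negS := by
      intro a ha
      obtain ⟨i, hi, rfl⟩ := mem_ofLen.mp ha
      exact mem_ofLen.mpr ⟨P.reflectionPerm i i, by rw [len_perm, hi], root_neg i⟩
    pairLL := by
      intro a ha b hb hab hab'
      obtain ⟨i, hi, rfl⟩ := mem_ofLen.mp ha
      obtain ⟨j, hj, rfl⟩ := mem_ofLen.mp hb
      rw [bf_two hj, pair_cast]
      have hij : i ≠ j := by rintro rfl; exact hab rfl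
      rcases h.same hij hab' (hi.trans hj.symm) with h1 | h1 | h1 <;> rw [h1]
      · left; norm_num
      · right; left; norm_num
      · right; right; norm_num
    pairLS := by
      intro a ha b hb
      obtain ⟨i, hi, rfl⟩ := mem_ofLen.mp ha
      obtain ⟨j, hj, rfl⟩ := mem_ofLen.mp hb
      rw [bf_one hj, pair_cast]
      have h1 := hLS i j hi hj
      have h2 := h.bound i j
      have h3 : P.pairingIn ℤ i j = -2 ∨ P.pairingIn ℤ i j = 0 ∨ P.pairingIn ℤ i j = 2 := by
        omega
      rcases h3 with h3 | h3 | h3 <;> rw [h3]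
      · left; norm_num
      · right; left; norm_num
      · right; right; norm_num
    pairSS := by
      intro a ha b hb hab hab'
      obtain ⟨i, hi, rfl⟩ := mem_ofLen.mp ha
      obtain ⟨j, hj, rfl⟩ := mem_ofLen.mp hb
      rw [bf_one hj, pair_cast]
      have hij : i ≠ j := by rintro rfl; exact hab rfl
      rcases h.same hij hab' (hi.trans hj.symm) with h1 | h1 | h1 <;> rw [h1]
      · left; norm_num
      · right; left; norm_num
      · right; right; norm_num
    subLL := by
      intro a ha b hb hab
      obtain ⟨i, hi, rfl⟩ := mem_ofLen.mp ha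
      obtain ⟨j, hj, rfl⟩ := mem_ofLen.mp hb
      rw [bf_two hj, pair_cast] at hab
      have h1 : P.pairingIn ℤ i j = 1 := by
        have h2 : 2 * P.pairingIn ℤ i j = 2 := by exact_mod_cast hab
        omega
      exact mem_ofLen.mpr ⟨P.reflectionPerm j i, by rw [len_perm, hi], refl_perm_one h1⟩
    subLS := by
      intro a ha b hb hab
      obtain ⟨i, hi, rfl⟩ := mem_ofLen.mp ha
      obtain ⟨j, hj, rfl⟩ := mem_ofLen.mp hb
      rw [bf_one hj, pair_cast] at hab
      have h1 : P.pairingIn ℤ i j = 2 := by exact_mod_cast hab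
      have h2 := hLS i j hi hj
      have h3 : P.pairingIn ℤ j i = 1 := by omega
      refine ⟨mem_ofLen.mpr ⟨P.reflectionPerm (P.reflectionPerm i j) (P.reflectionPerm i j), ?_, ?_⟩,
        mem_ofLen.mpr ⟨P.reflectionPerm j i, by rw [len_perm, hi], refl_perm_two h1⟩⟩
      · rw [len_perm, len_perm, hj]
      · rw [root_neg, refl_perm_one h3]
        abel
    subSS := by
      intro a ha b hb hab
      obtain ⟨i, hi, rfl⟩ := mem_ofLen.mp ha
      obtain ⟨j, hj, rfl⟩ := mem_ofLen.mp hb
      rw [bf_one hj, pair_cast] at hab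
      have h1 : P.pairingIn ℤ i j = 1 := by exact_mod_cast hab
      exact mem_ofLen.mpr ⟨P.reflectionPerm j i, by rw [len_perm, hi], refl_perm_one h1⟩
    smallL := by
      intro x hx a ha
      obtain ⟨i, hi, rfl⟩ := mem_ofLen.mp ha
      rw [bf_two hi]
      rcases h.ws.small x hx i with h1 | h1 | h1 <;> rw [h1]
      · left; norm_num
      · right; left; norm_num
      · right; right; norm_num
    smallS := by
      intro x hx a ha
      obtain ⟨i, hi, rfl⟩ := mem_ofLen.mp ha
      rw [bf_one hi]
      exact h.ws.small x hx i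
    xsubL := by
      intro x hx a ha hxa
      obtain ⟨i, hi, rfl⟩ := mem_ofLen.mp ha
      rw [bf_two hi] at hxa
      have h1 : P.coroot' i x = 1 := by
        have h2 : (2 : K) * (P.coroot' i x - 1) = 0 := by linear_combination hxa
        have h3 := (mul_eq_zero.mp h2).resolve_left two_ne_zero
        linear_combination h3
      exact sub_root_mem h.ws hx h1
    xsubS := by
      intro x hx a ha hxa
      obtain ⟨i, hi, rfl⟩ := mem_ofLen.mp ha
      rw [bf_one hi] at hxa
      exact sub_root_mem h.ws hx hxa
    xneg := h.ws.neg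
    sx := h.sx
    faithL := by
      intro a ha
      obtain ⟨i, hi, rfl⟩ := mem_ofLen.mp ha
      obtain ⟨x, hx, h1⟩ := h.faith i
      exact ⟨x, hx, by rw [bf_two hi, h1, mul_one]⟩
    faithS := by
      intro a ha
      obtain ⟨i, hi, rfl⟩ := mem_ofLen.mp ha
      obtain ⟨x, hx, h1⟩ := h.faith i
      exact ⟨x, hx, by rw [bf_one hi, h1]⟩
    chain := by
      intro x hx y hy hx1 hy1
      refine Relation.ReflTransGen.mono ?_ _ _ (weights_chain_one h.ws s h.sx hx hy hx1 hy1)
      rintro x y ⟨i, h1, h2, h3⟩
      exact ⟨P.root i, hmem i, h1, by rw [hco]; exact h2, h3⟩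
    exL := by
      obtain ⟨i, hi, hi2⟩ := h.exists_s _ (Sit.span_len hi0) (fun i hi => by
        change len P _ = 2 * l
        rw [len_perm]
        exact hi)
      exact ⟨P.root i, mem_ofLen.mpr ⟨i, hi, rfl⟩, hi2⟩
    exS := by
      obtain ⟨i, hi, hi2⟩ := h.exists_s _ (Sit.span_len hj0) (fun i hi => by
        change len P _ = l
        rw [len_perm]
        exact hi)
      exact ⟨P.root i, mem_ofLen.mpr ⟨i, hi, rfl⟩, hi2⟩
    hit := by
      intro m hm a _
      exact span_form (h.span_plus hspan) l (fun j hj => hm _ (hmem j) hj) _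
    sep := by
      intro x hx y hy hxy
      by_contra hne
      obtain ⟨i, h1, h2⟩ := (h.ws.small x hx).separate (h.ws.small y hy) hne
        (h.ws.conn x hx y hy)
      have h3 := hxy _ (hmem i)
      have h4 := hco i x
      have h5 := hco i y
      rw [co, h3, ← co, h5, h1, h2] at h4
      norm_num at h4
    orth := by
      intro x hx a ha hxa
      obtain ⟨i, hi, rfl⟩ := mem_ofLen.mp ha
      rw [bf_two hi] at hxa
      have h1 : P.coroot' i x = 1 := by
        have h2 : (2 : K) * (P.coroot' i x - 1) = 0 := by linear_combination hxa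
        have h3 := (mul_eq_zero.mp h2).resolve_left two_ne_zero
        linear_combination h3
      obtain ⟨A, hA0, hA1, hA2, hA3⟩ := exists_orth_mem h.ws hx h1
      refine ⟨A.image P.root, ?_, ?_, ?_, ?_, ?_⟩
      · intro b hb
        obtain ⟨j, hj, rfl⟩ := Finset.mem_image.mp hb
        exact hmem j
      · exact Finset.mem_image.mpr ⟨i, hA0, rfl⟩
      · intro b hb
        obtain ⟨j, hj, rfl⟩ := Finset.mem_image.mp hb
        rw [hco]
        exact hA1 j hj
      · intro b hb c hc hbc
        obtain ⟨j, hj, rfl⟩ := Finset.mem_image.mp hb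
        obtain ⟨k, hk, rfl⟩ := Finset.mem_image.mp hc
        have hjk : j ≠ k := by rintro rfl; exact hbc rfl
        have h4 := fm_root_root P j k
        rw [hA2 j hj k hk hjk, Int.cast_zero, zero_mul] at h4
        rw [bf_apply, (mul_eq_zero.mp h4).resolve_left two_ne_zero, mul_zero]
      · rw [Finset.sum_image (fun _ _ _ _ h => P.root.injective h)]
        exact hA3
    par := by
      intro x hx
      obtain ⟨A, hA1, hA2, hA3, hA4⟩ := h.ws.exists_sorth hx
      refine ⟨A.image P.root, ?_, ?_, ?_, ?_, ?_⟩
      · intro b hb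
        obtain ⟨j, hj, rfl⟩ := Finset.mem_image.mp hb
        exact hmem j
      · intro b hb
        obtain ⟨j, hj, rfl⟩ := Finset.mem_image.mp hb
        rw [hco]
        exact hA1 j hj
      · intro b hb c hc hbc
        obtain ⟨j, hj, rfl⟩ := Finset.mem_image.mp hb
        obtain ⟨k, hk, rfl⟩ := Finset.mem_image.mp hc
        have hjk : j ≠ k := by rintro rfl; exact hbc rfl
        have h4 := fm_root_root P j k
        rw [hA2 j hj k hk hjk, Int.cast_zero, zero_mul] at h4
        refine ⟨by rw [bf_apply, (mul_eq_zero.mp h4).resolve_left two_ne_zero, mul_zero], ?_⟩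
        intro h5
        apply hA4 j hj k hk hjk
        rcases Finset.mem_union.mp h5 with h6 | h6
        · obtain ⟨m, -, hm⟩ := mem_ofLen.mp h6
          exact ⟨m, hm⟩
        · obtain ⟨m, -, hm⟩ := mem_ofLen.mp h6
          exact ⟨m, hm⟩
      · rw [Finset.sum_image (fun _ _ _ _ h => P.root.injective h)]
        exact hA3
      · rw [Finset.card_image_of_injective _ P.root.injective]
        exact hpar x hx A hA1 hA2 hA3 hA4 }

end TR
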